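import Pool.Agent.Y208.BH.Stm

set_option autoImplicit false

namespace Y627.BH

open Y208.BH

theorem th_mono {n : ℕ} {s t : ℚ} (h : s < t) : th n s < th n t := by
  unfold th
  split_ifs <;> linarith

/-- a point -/
def pt (m : ℕ) (h : 1 ≤ m) : Dy := ⟨m, by exact_mod_cast h, 0, m, by simp⟩

variable {G : Type} [Group G] [MulAction G Dy] {X : ℕ → G}

theorem step1 (hX : TAct G X) : ∀ (k : ℕ) (x y : Dy), (x : ℚ) < y → (∃ m : ℤ, 2 ^ k * (x : ℚ) = m) →
    ∃ (g : G) (m : ℕ), 1 ≤ m ∧ ((g • x : Dy) : ℚ) = m ∧ ((g • x : Dy) : ℚ) < (g • y : Dy) := by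
  intro k
  induction k with
  | zero =>
    intro x y hxy ⟨m, hm⟩
    have hx := x.2.1
    have hm' : (0 : ℚ) < m := by rw [← hm]; simpa using hx
    have hm'' : 0 < m := by exact_mod_cast hm'
    refine ⟨1, m.toNat, by omega, ?_, by simpa using hxy⟩
    have : ((m.toNat : ℤ) : ℚ) = m := by rw [Int.toNat_of_nonneg hm''.le]
    rw [one_smul]
    have h2 : ((m.toNat : ℕ) : ℚ) = m := by exact_mod_cast this
    rw [h2, ← hm]; simp
  | succ k ih =>
    intro x y hxy ⟨m, hm⟩
    have hx := x.2.1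
    by_cases hint : (x : ℚ) = (⌊(x : ℚ)⌋₊ : ℚ)
    · refine ⟨1, ⌊(x : ℚ)⌋₊, ?_, by rw [one_smul]; exact hint, by simpa using hxy⟩
      by_contra h
      have : ⌊(x : ℚ)⌋₊ = 0 := by omega
      rw [this] at hint
      rw [hint] at hx
      simp at hx
    · set n := ⌊(x : ℚ)⌋₊ with hn
      have h1 : (n : ℚ) ≤ x := Nat.floor_le hx.le
      have h2 : (x : ℚ) < n + 1 := Nat.lt_floor_add_one _
      have h3 : (n : ℚ) < x := lt_of_le_of_ne h1 (Ne.symm hint)
      have e1 : ((X n • x : Dy) : ℚ) = n + 2 * (x - n) := by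
        rw [hX.act]
        unfold th
        rw [if_neg (not_le.mpr h3), if_pos h2.le]
      obtain ⟨g, m', a1, a2, a3⟩ := ih (X n • x) (X n • y)
        (by rw [hX.act, hX.act]; exact th_mono hxy)
        ⟨m - 2 ^ k * n, by
          rw [e1]; push_cast; rw [← hm]; ring⟩
      refine ⟨g * X n, m', a1, ?_, ?_⟩
      · rw [mul_smul]; exact a2
      · rw [mul_smul, mul_smul]; exact a3

theorem step2 (hX : TAct G X) : ∀ (k : ℕ) (m : ℕ) (x y : Dy), (x : ℚ) = m → (x : ℚ) < y →
    (∃ m : ℤ, 2 ^ k * (y : ℚ) = m) →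
    ∃ (g : G) (m' : ℕ), m < m' ∧ g • x = x ∧ ((g • y : Dy) : ℚ) = m' := by
  intro k
  induction k with
  | zero =>
    intro m0 x y hx0 hxy ⟨m, hm⟩
    have hy := y.2.1
    have hm' : (0 : ℚ) < m := by rw [← hm]; simpa using hy
    have hm'' : 0 < m := by exact_mod_cast hm'
    have h2 : ((m.toNat : ℕ) : ℚ) = y := by
      have : ((m.toNat : ℤ) : ℚ) = m := by rw [Int.toNat_of_nonneg hm''.le]
      have h2 : ((m.toNat : ℕ) : ℚ) = m := by exact_mod_cast this
      rw [h2, ← hm]; simp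
    refine ⟨1, m.toNat, ?_, by simp, by rw [one_smul, h2]⟩
    rw [hx0, ← h2] at hxy
    exact_mod_cast hxy
  | succ k ih =>
    intro m0 x y hx0 hxy ⟨m, hm⟩
    have hy := y.2.1
    by_cases hint : (y : ℚ) = (⌊(y : ℚ)⌋₊ : ℚ)
    · refine ⟨1, ⌊(y : ℚ)⌋₊, ?_, by rw [one_smul], by rw [one_smul]; exact hint⟩
      rw [hx0, hint] at hxy
      exact_mod_cast hxy
    · set n := ⌊(y : ℚ)⌋₊ with hn
      have h1 : (n : ℚ) ≤ y := Nat.floor_le hy.le
      have h2 : (y : ℚ) < n + 1 := Nat.lt_floor_add_one _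
      have h3 : (n : ℚ) < y := lt_of_le_of_ne h1 (Ne.symm hint)
      have h4 : m0 ≤ n := by
        have : (m0 : ℚ) < n + 1 := by rw [← hx0]; linarith
        have : m0 < n + 1 := by exact_mod_cast this
        omega
      have e1 : ((X n • y : Dy) : ℚ) = n + 2 * (y - n) := by
        rw [hX.act]
        unfold th
        rw [if_neg (not_le.mpr h3), if_pos h2.le]
      have e2 : X n • x = x := by
        apply Subtype.ext
        rw [hX.act]
        unfold th
        rw [if_pos]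
        rw [hx0]
        exact_mod_cast h4
      obtain ⟨g, m', a1, a2, a3⟩ := ih m0 x (X n • y) hx0
        (by rw [← e2, hX.act, hX.act]; exact th_mono hxy)
        ⟨m - 2 ^ k * n, by
          rw [e1]; push_cast; rw [← hm]; ring⟩
      refine ⟨g * X n, m', a1, ?_, ?_⟩
      · rw [mul_smul, e2]; exact a2
      · rw [mul_smul]; exact a3

theorem step3 (hX : TAct G X) : ∀ (m : ℕ) (m' : ℕ) (x y : Dy), (x : ℚ) = m + 1 → (y : ℚ) = m' → m + 1 < m' →
    ∃ g : G, ((g • x : Dy) : ℚ) = 1 ∧ ((g • y : Dy) : ℚ) = 2 := by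
  intro m
  induction m with
  | zero =>
    intro m'
    induction m' with
    | zero => intro x y _ _ h; omega
    | succ m' ih =>
      intro x y hx hy h
      by_cases h2 : m' = 1
      · refine ⟨1, ?_, ?_⟩
        · rw [one_smul, hx]; simp
        · rw [one_smul, hy, h2]; norm_num
      · have h3 : 2 ≤ m' := by omega
        have e1 : X 1 • (pt m' (by omega)) = y := by
          apply Subtype.ext
          rw [hX.act, hy]
          have h3' : (2 : ℚ) ≤ m' := by exact_mod_cast h3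
          unfold th pt
          simp only
          by_cases h4 : (m' : ℚ) ≤ (1 : ℕ) + 1
          · rw [if_neg (by push_cast; linarith), if_pos h4]
            push_cast at h4 ⊢
            linarith
          · rw [if_neg (by push_cast; linarith), if_neg h4]
            push_cast; ring
        have e2 : X 1 • x = x := by
          apply Subtype.ext
          rw [hX.act, hx]
          unfold th
          rw [if_pos (by simp)]
        have e3 : (X 1)⁻¹ • y = pt m' (by omega) := by rw [← e1, inv_smul_smul]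
        have e4 : (X 1)⁻¹ • x = x := by rw [inv_smul_eq_iff]; exact e2.symm
        obtain ⟨g, a1, a2⟩ := ih x (pt m' (by omega)) hx rfl (by omega)
        refine ⟨g * (X 1)⁻¹, ?_, ?_⟩
        · rw [mul_smul, e4]; exact a1
        · rw [mul_smul, e3]; exact a2
  | succ m ih =>
    intro m' x y hx hy h
    have key : ∀ (j : ℕ) (hj : 1 ≤ j), ((X 0 • (pt j hj) : Dy) : ℚ) = j + 1 := by
      intro j hj
      rw [hX.act]
      have hj' : (1 : ℚ) ≤ j := by exact_mod_cast hj
      unfold th pt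
      simp only
      by_cases h4 : (j : ℚ) ≤ (0 : ℕ) + 1
      · rw [if_neg (by push_cast; linarith), if_pos h4]
        push_cast at h4 ⊢
        linarith
      · rw [if_neg (by push_cast; linarith), if_neg h4]
    have e3 : (X 0)⁻¹ • y = pt (m' - 1) (by omega) := by
      rw [inv_smul_eq_iff]
      apply Subtype.ext
      rw [key, hy]
      have : ((m' - 1 : ℕ) : ℚ) + 1 = ((m' - 1 + 1 : ℕ) : ℚ) := by push_cast; ring
      rw [this]
      congr 1
      omega
    have e4 : (X 0)⁻¹ • x = pt (m + 1) (by omega) := by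
      rw [inv_smul_eq_iff]
      apply Subtype.ext
      rw [key, hx]
    obtain ⟨g, a1, a2⟩ := ih (m' - 1) (pt (m + 1) (by omega)) (pt (m' - 1) (by omega)) (by simp [pt])
      (by simp only [pt]) (by omega)
    refine ⟨g * (X 0)⁻¹, ?_, ?_⟩
    · rw [mul_smul, e4]; exact a1
    · rw [mul_smul, e3]; exact a2

theorem main (hX : TAct G X) (x y : Dy) (h : (x : ℚ) < y) :
    ∃ g : G, ((g • x : Dy) : ℚ) = 1 ∧ ((g • y : Dy) : ℚ) = 2 := by
  obtain ⟨_, k, m0, hm0⟩ := x.2
  obtain ⟨g1, m, a1, a2, a3⟩ := step1 hX k x y h ⟨m0, hm0⟩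
  obtain ⟨_, k', m1, hm1⟩ := (g1 • y).2
  obtain ⟨g2, m', b1, b2, b3⟩ := step2 hX k' m (g1 • x) (g1 • y) a2 a3 ⟨m1, hm1⟩
  obtain ⟨g3, c1, c2⟩ := step3 hX (m - 1) m' (g2 • (g1 • x)) (g2 • (g1 • y))
    (by rw [b2, a2]
        have : ((m - 1 : ℕ) : ℚ) + 1 = ((m - 1 + 1 : ℕ) : ℚ) := by push_cast; ring
        rw [this]; congr 1; omega) b3 (by omega)
  refine ⟨g3 * (g2 * g1), ?_, ?_⟩
  · rw [mul_smul, mul_smul]; exact c1
  · rw [mul_smul, mul_smul]; exact c2

theorem t_TF5 : S_TF5 := by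
  intro G _ _ X hX x y x' y' h h'
  obtain ⟨g, a1, a2⟩ := main hX x y h
  obtain ⟨g', b1, b2⟩ := main hX x' y' h'
  refine ⟨g'⁻¹ * g, ?_, ?_⟩
  · rw [mul_smul, inv_smul_eq_iff]
    apply Subtype.ext
    rw [a1, b1]
  · rw [mul_smul, inv_smul_eq_iff]
    apply Subtype.ext
    rw [a2, b2]

end Y627.BH
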